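import Pool.Agent.R731.HS.Facts

/-!
# No `(κ,μ,ν)`-nullity condition on the Reeb field of a real hypersurface of the two-plane
Grassmannians `G₂(ℂ^{m+2})` and `SU(2,m)/S(U(2)×U(m))`, `m ≥ 3` (MP_5c1318_gt, Q1)
-/

set_option autoImplicit false

namespace Pool.Agent.Results.MP_5c1318_gt.NoNullity

open Pool.Agent.R731.HS Matrix Complex
open scoped ContDiff Topology ComplexOrder Matrix.Norms.Elementwise

attribute [-instance] instTopologicalSpaceMatrix
attribute [-instance] Matrix.instUniformSpace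

/-- For `m ≥ 3` and `ε = 1` (the Grassmannian `G₂(ℂ^{m+2})` in its big cell) or `ε = -1` (the
complex hyperbolic two-plane Grassmannian as bounded domain), with its symmetric Kähler metric
`met ε`: for every piece of real hypersurface `φ : U → Om ε m` with unit normal `N`, the
`(κ,μ,ν)`-nullity identity for `ξ = -J N` fails at *every* point `x`, for all reals `κ`, `μ`,
`ν`. -/
theorem result (m : ℕ) (hm : 3 ≤ m) (ε : ℝ) (hε : ε = 1 ∨ ε = -1) :
    (ε = 1 → Om ε m = Set.univ) ∧ KaehlerModel m ε ∧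
    ∀ (U : Set (EuclideanSpace ℝ (Fin (4 * m - 1))))
      (φ N : EuclideanSpace ℝ (Fin (4 * m - 1)) → Matrix (Fin m) (Fin 2) ℂ),
      HypSurf (met ε) (Om ε m) U φ N → ∀ x ∈ U, ∀ κ μ ν : ℝ,
        ¬ NullAt (Gam ε) (met ε) φ N (fun X => I • X) (-(I • N x)) κ μ ν x := by
  refine ⟨?_, kaehlerModel m hε, ?_⟩
  · rintro rfl
    exact Set.eq_univ_of_forall mem_Om_one
  · intro U φ N hyp x hx κ μ ν h
    have e1 : -(I • N x) = -(N x * (I • (1 : Matrix (Fin 2) (Fin 2) ℂ))) := by
      rw [Matrix.mul_smul, Matrix.mul_one]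
    rw [e1] at h
    refine main hm hε hyp hx (I • (1 : Matrix (Fin 2) (Fin 2) ℂ)) ?_ ?_ _ κ μ ν h
    · rw [Matrix.smul_mul, Matrix.one_mul, smul_smul, I_mul_I, neg_smul, one_smul]
    · rw [conjTranspose_smul, conjTranspose_one, Matrix.smul_mul, Matrix.one_mul, Matrix.mul_smul,
        Matrix.mul_one, Complex.star_def, conj_I, neg_smul, add_neg_cancel]

end Pool.Agent.Results.MP_5c1318_gt.NoNullity
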